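import Mathlib
import Pool.Agent.U610.PC.Stm

/-! Project PC, package DIAG: reduction of a quadratic equation with a symmetric matrix of
polynomials to the isotropy of a diagonal form. -/

set_option autoImplicit false

namespace Pool.Agent.U603.PC

open Polynomial Pool.Agent.U610.PC Matrix

/-- diagonalisation of a symmetric matrix over a field of characteristic zero -/
theorem exists_diagK {K : Type} [Field K] [CharZero K] (N : ℕ) (M : Matrix (Fin N) (Fin N) K)
    (hM : M.IsSymm) :
    ∃ (P : Matrix (Fin N) (Fin N) K) (w : Fin N → K), P.det ≠ 0 ∧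
      Pᵀ * M * P = Matrix.diagonal w := by
  haveI : Invertible (2 : K) := invertibleOfNonzero (by norm_num)
  have hB : LinearMap.IsSymm (Matrix.toBilin' M) := by
    constructor
    intro x y
    rw [RingHom.id_apply, Matrix.toBilin'_apply', Matrix.toBilin'_apply']
    rw [Matrix.dotProduct_mulVec, ← Matrix.mulVec_transpose, hM.eq, dotProduct_comm]
  obtain ⟨v, hv⟩ := LinearMap.BilinForm.exists_orthogonal_basis hB
  have hfin : Module.finrank K (Fin N → K) = N := by simp
  set b := v.reindex (finCongr hfin) with hb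
  have hbo : ∀ i j, i ≠ j → Matrix.toBilin' M (b i) (b j) = 0 := by
    intro i j hij
    rw [hb, Module.Basis.reindex_apply, Module.Basis.reindex_apply]
    exact hv (fun h => hij (by simpa using h))
  refine ⟨(Pi.basisFun K (Fin N)).toMatrix b, fun i => Matrix.toBilin' M (b i) (b i), ?_, ?_⟩
  · intro h0
    have h1 : (Pi.basisFun K (Fin N)).toMatrix b * b.toMatrix (Pi.basisFun K (Fin N)) = 1 :=
      Module.Basis.toMatrix_mul_toMatrix_flip _ _
    have := congrArg Matrix.det h1
    rw [Matrix.det_mul, h0, zero_mul, Matrix.det_one] at this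
    exact zero_ne_one this
  ext i j
  have h1 : (((Pi.basisFun K (Fin N)).toMatrix b)ᵀ * M * (Pi.basisFun K (Fin N)).toMatrix b) i j =
      Matrix.toBilin' M (b i) (b j) := by
    rw [Matrix.toBilin'_apply', Matrix.mul_assoc, Matrix.mul_apply]
    simp only [dotProduct, Matrix.transpose_apply, Module.Basis.toMatrix_apply, Pi.basisFun_repr]
    refine Finset.sum_congr rfl fun k _ => ?_
    rw [Matrix.mul_apply]
    rfl
  rw [h1]
  by_cases hij : i = j
  · subst hij
    rw [Matrix.diagonal_apply_eq]
  · rw [Matrix.diagonal_apply_ne _ hij, hbo i j hij]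

theorem quad_eq {R : Type} [CommRing R] (N : ℕ) (M P : Matrix (Fin N) (Fin N) R) (w : Fin N → R)
    (h : Pᵀ * M * P = Matrix.diagonal w) (z : Fin N → R) :
    P.mulVec z ⬝ᵥ M.mulVec (P.mulVec z) = ∑ i, w i * z i ^ 2 := by
  have h1 : P.mulVec z ⬝ᵥ M.mulVec (P.mulVec z) = z ⬝ᵥ (Pᵀ * M * P).mulVec z := by
    rw [← Matrix.mulVec_mulVec, ← Matrix.mulVec_mulVec, Matrix.dotProduct_mulVec z,
      Matrix.vecMul_transpose]
  rw [h1, h]
  simp only [dotProduct, Matrix.mulVec_diagonal]
  exact Finset.sum_congr rfl fun i _ => by ring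

/-- diagonalisation of a symmetric matrix of polynomials -/
theorem exists_diagX (N : ℕ) (A : Matrix (Fin N) (Fin N) ℚ[X]) (hA : A.IsSymm) :
    ∃ (P : Matrix (Fin N) (Fin N) ℚ[X]) (w : Fin N → ℚ[X]), P.det ≠ 0 ∧
      Pᵀ * A * P = Matrix.diagonal w := by
  classical
  let K := FractionRing ℚ[X]
  haveI : CharZero K := charZero_of_injective_algebraMap (IsFractionRing.injective ℚ[X] K)
  have hinj : Function.Injective (algebraMap ℚ[X] K) := IsFractionRing.injective ℚ[X] K
  obtain ⟨P', w', hP', hD'⟩ := exists_diagK (K := K) N (A.map (algebraMap ℚ[X] K)) (by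
    unfold Matrix.IsSymm
    rw [← Matrix.transpose_map, hA.eq])
  obtain ⟨c, hc⟩ := IsLocalization.exist_integer_multiples_of_finite (nonZeroDivisors ℚ[X])
    (fun s : Fin N × Fin N => P' s.1 s.2)
  choose g hg using hc
  have hc0 : (c : ℚ[X]) ≠ 0 := nonZeroDivisors.ne_zero c.2
  have hc0' : algebraMap ℚ[X] K c ≠ 0 := by
    rw [Ne, map_eq_zero_iff _ hinj]
    exact hc0
  let P : Matrix (Fin N) (Fin N) ℚ[X] := Matrix.of fun i j => g (i, j)
  have hPm : P.map (algebraMap ℚ[X] K) = (algebraMap ℚ[X] K c) • P' := by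
    ext i j
    rw [Matrix.map_apply, Matrix.smul_apply]
    show algebraMap ℚ[X] K (g (i, j)) = _
    rw [hg (i, j), smul_eq_mul, Algebra.smul_def]
  refine ⟨P, fun i => (Pᵀ * A * P) i i, ?_, ?_⟩
  · intro h0
    have h1 : (P.map (algebraMap ℚ[X] K)).det = 0 := by
      have := (RingHom.map_det (algebraMap ℚ[X] K) P).symm
      rw [h0, map_zero] at this
      exact this
    rw [hPm, Matrix.det_smul] at h1
    exact (mul_ne_zero (pow_ne_zero _ hc0') hP') h1
  · ext1 i j
    by_cases hij : i = j
    · subst hij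
      rw [Matrix.diagonal_apply_eq]
    · rw [Matrix.diagonal_apply_ne _ hij]
      apply hinj
      rw [map_zero]
      have h1 : (Pᵀ * A * P).map (algebraMap ℚ[X] K) =
          (algebraMap ℚ[X] K c * algebraMap ℚ[X] K c) • Matrix.diagonal w' := by
        rw [Matrix.map_mul, Matrix.map_mul, Matrix.transpose_map, hPm, ← hD',
          Matrix.transpose_smul, Matrix.smul_mul, Matrix.smul_mul, Matrix.mul_smul, smul_smul]
      have h2 := congrFun (congrFun h1 i) j
      rw [Matrix.map_apply, Matrix.smul_apply, Matrix.diagonal_apply_ne _ hij, smul_zero] at h2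
      exact h2

/-- an isotropic vector on which a given linear form is one -/
theorem move {n : ℕ} (w r u : Fin n → ℚ) (hw : ∀ i, w i ≠ 0) (hr : r ≠ 0) (hu : u ≠ 0)
    (h : ∑ i, w i * u i ^ 2 = 0) :
    ∃ v : Fin n → ℚ, ∑ i, r i * v i = 1 ∧ ∑ i, w i * v i ^ 2 = 0 := by
  classical
  have fin : ∀ v' : Fin n → ℚ, ∑ i, r i * v' i ≠ 0 → ∑ i, w i * v' i ^ 2 = 0 →
      ∃ v : Fin n → ℚ, ∑ i, r i * v i = 1 ∧ ∑ i, w i * v i ^ 2 = 0 := by
    intro v' h1 h2
    refine ⟨fun i => v' i / ∑ i, r i * v' i, ?_, ?_⟩
    · have : ∑ i, r i * (v' i / ∑ i, r i * v' i) = (∑ i, r i * v' i) / ∑ i, r i * v' i := by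
        rw [Finset.sum_div]
        exact Finset.sum_congr rfl fun i _ => by ring
      rw [this, div_self h1]
    · have : ∑ i, w i * (v' i / ∑ i, r i * v' i) ^ 2 =
          (∑ i, w i * v' i ^ 2) / (∑ i, r i * v' i) ^ 2 := by
        rw [Finset.sum_div]
        exact Finset.sum_congr rfl fun i _ => by ring
      rw [this, h2, zero_div]
  by_cases hρ : ∑ i, r i * u i = 0
  · obtain ⟨k, hk⟩ : ∃ k, u k ≠ 0 := by
      by_contra hc
      push Not at hc
      exact hu (funext hc)
    obtain ⟨l, hl⟩ : ∃ l, r l ≠ 0 := by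
      by_contra hc
      push Not at hc
      exact hr (funext hc)
    obtain ⟨x, hx1, hx2⟩ : ∃ x : Fin n → ℚ, ∑ i, w i * u i * x i ≠ 0 ∧ ∑ i, r i * x i ≠ 0 := by
      have hwk : w k * u k ≠ 0 := mul_ne_zero (hw k) hk
      have s1 : ∀ (f : Fin n → ℚ) (j : Fin n), ∑ i, f i * (Pi.single j 1 : Fin n → ℚ) i = f j := by
        intro f j
        simp [Pi.single_apply]
      by_cases h1 : r k = 0
      · by_cases h2 : w l * u l = 0
        · refine ⟨Pi.single k 1 + Pi.single l 1, ?_, ?_⟩
          · have : ∑ i, w i * u i * (Pi.single k 1 + Pi.single l 1 : Fin n → ℚ) i =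
                w k * u k + w l * u l := by
              simp only [Pi.add_apply, mul_add, Finset.sum_add_distrib]
              rw [s1 (fun i => w i * u i) k, s1 (fun i => w i * u i) l]
            rw [this, h2, add_zero]
            exact hwk
          · have : ∑ i, r i * (Pi.single k 1 + Pi.single l 1 : Fin n → ℚ) i = r k + r l := by
              simp only [Pi.add_apply, mul_add, Finset.sum_add_distrib]
              rw [s1 r k, s1 r l]
            rw [this, h1, zero_add]
            exact hl
        · exact ⟨Pi.single l 1, by rw [s1 (fun i => w i * u i) l]; exact h2, by rw [s1 r l]; exact hl⟩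
      · exact ⟨Pi.single k 1, by rw [s1 (fun i => w i * u i) k]; exact hwk, by rw [s1 r k]; exact h1⟩
    obtain ⟨β, hβ⟩ : ∃ β, β = ∑ i, w i * u i * x i := ⟨_, rfl⟩
    obtain ⟨qx, hqx⟩ : ∃ qx, qx = ∑ i, w i * x i ^ 2 := ⟨_, rfl⟩
    refine fin (fun i => qx * u i - 2 * β * x i) ?_ ?_
    · have : ∑ i, r i * (qx * u i - 2 * β * x i) =
          qx * (∑ i, r i * u i) - 2 * β * ∑ i, r i * x i := by
        rw [Finset.mul_sum, Finset.mul_sum, ← Finset.sum_sub_distrib]
        exact Finset.sum_congr rfl fun i _ => by ring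
      rw [this, hρ, mul_zero, zero_sub, neg_ne_zero, hβ]
      exact mul_ne_zero (mul_ne_zero two_ne_zero hx1) hx2
    · have : ∑ i, w i * (qx * u i - 2 * β * x i) ^ 2 =
          qx ^ 2 * (∑ i, w i * u i ^ 2) - 4 * qx * β * (∑ i, w i * u i * x i) +
            4 * β ^ 2 * ∑ i, w i * x i ^ 2 := by
        rw [Finset.mul_sum, Finset.mul_sum, Finset.mul_sum, ← Finset.sum_sub_distrib,
          ← Finset.sum_add_distrib]
        exact Finset.sum_congr rfl fun i _ => by ring
      rw [this, h, ← hβ, ← hqx]
      ring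
  · exact fin u hρ h

/-- clearing the denominators of a polynomial -/
theorem clear (f : ℚ[X]) (hf : f ≠ 0) : ∃ (D : ℤ[X]) (c : ℚ), c ≠ 0 ∧ D ≠ 0 ∧
    ∀ a : ℚ, aeval a D = c ^ 2 * f.eval a := by
  obtain ⟨b, hb⟩ := IsLocalization.integerNormalization_map_to_map (nonZeroDivisors ℤ) f
  have hb0 : ((b : ℤ) : ℚ) ≠ 0 := by
    exact_mod_cast nonZeroDivisors.ne_zero b.2
  have key : ∀ a : ℚ, aeval a (C (b : ℤ) * IsLocalization.integerNormalization
      (nonZeroDivisors ℤ) f) = ((b : ℤ) : ℚ) ^ 2 * f.eval a := by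
    intro a
    rw [map_mul, aeval_C]
    have h1 : aeval a (IsLocalization.integerNormalization (nonZeroDivisors ℤ) f) =
        ((b : ℤ) : ℚ) * f.eval a := by
      rw [← Polynomial.aeval_map_algebraMap ℚ a, hb]
      rw [Polynomial.coe_aeval_eq_eval, Polynomial.eval_smul, zsmul_eq_mul]
    rw [h1]
    simp
    ring
  refine ⟨C (b : ℤ) * IsLocalization.integerNormalization (nonZeroDivisors ℤ) f, ((b : ℤ) : ℚ),
    hb0, ?_, key⟩
  intro h0
  obtain ⟨a, ha⟩ : ∃ a : ℚ, f.eval a ≠ 0 := by
    by_contra hc
    push Not at hc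
    exact hf (Polynomial.funext (by simpa using hc))
  have := key a
  rw [h0, map_zero] at this
  exact (mul_ne_zero (pow_ne_zero 2 hb0) ha) this.symm

theorem t_DIAG : S_DIAG := by
  classical
  intro m A hA
  obtain ⟨P, w, hP, hD⟩ := exists_diagX (m + 1) A hA
  -- the form at `a`
  have hDa : ∀ a : ℚ, (P.map (Polynomial.eval a))ᵀ * A.map (Polynomial.eval a) *
      P.map (Polynomial.eval a) = Matrix.diagonal fun i => (w i).eval a := by
    intro a
    have h1 := congrArg (fun M : Matrix (Fin (m + 1)) (Fin (m + 1)) ℚ[X] =>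
      M.map (Polynomial.evalRingHom a)) hD
    simp only [Matrix.map_mul, Matrix.transpose_map] at h1
    rw [Matrix.diagonal_map (map_zero _)] at h1
    exact h1
  have hrow : ∀ (a : ℚ) (z : Fin (m + 1) → ℚ), (P.map (Polynomial.eval a)).mulVec z 0 =
      ∑ i, (P 0 i).eval a * z i := fun a z => rfl
  by_cases hc : ∃ i, w i = 0 ∧ P 0 i ≠ 0
  · left
    obtain ⟨i, hi, hPi⟩ := hc
    refine (Polynomial.finite_setOf_isRoot hPi).subset fun a ha => ?_
    by_contra hroot
    apply ha
    have hne : (P 0 i).eval a ≠ 0 := hroot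
    refine ⟨(P.map (Polynomial.eval a)).mulVec (Pi.single i ((P 0 i).eval a)⁻¹), ?_, ?_⟩
    · rw [hrow, Finset.sum_eq_single i]
      · rw [Pi.single_eq_same, mul_inv_cancel₀ hne]
      · intro j _ hj
        rw [Pi.single_eq_of_ne hj, mul_zero]
      · intro h
        exact absurd (Finset.mem_univ _) h
    · rw [quad_eq _ _ _ _ (hDa a), Finset.sum_eq_single i]
      · rw [hi, Polynomial.eval_zero, zero_mul]
      · intro j _ hj
        rw [Pi.single_eq_of_ne hj]
        ring
      · intro h
        exact absurd (Finset.mem_univ _) h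
  · right
    push Not at hc
    obtain ⟨n, ⟨e⟩⟩ : ∃ n : ℕ, Nonempty (Fin n ≃ {i // w i ≠ 0}) :=
      ⟨_, ⟨(Fintype.equivFin _).symm⟩⟩
    have hcl := fun k : Fin n => clear (w (e k)) (e k).2
    choose D c hc0 hD0 hDc using hcl
    refine ⟨n, D, hD0, ?_⟩
    have hE : ({a : ℚ | P.det.IsRoot a} ∪ ⋃ k : Fin n, {a : ℚ | (w (e k)).IsRoot a}).Finite :=
      (Polynomial.finite_setOf_isRoot hP).union
        (Set.finite_iUnion fun k => Polynomial.finite_setOf_isRoot (e k).2)
    refine hE.subset fun a ha => ?_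
    by_contra hout
    apply ha
    rw [Set.mem_union, not_or, Set.mem_iUnion, not_exists] at hout
    obtain ⟨hdet, hwa⟩ := hout
    have hdet' : P.det.eval a ≠ 0 := hdet
    have hwa' : ∀ k, (w (e k)).eval a ≠ 0 := hwa
    -- sums over the support
    have hsum : ∀ f : Fin (m + 1) → ℚ, (∀ i, w i = 0 → f i = 0) →
        ∑ i, f i = ∑ k, f (e k) := by
      intro f hf
      rw [Equiv.sum_comp e (fun i : {i // w i ≠ 0} => f i)]
      rw [← Finset.sum_subtype (Finset.univ.filter fun i => w i ≠ 0) (by simp) f]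
      symm
      refine Finset.sum_filter_of_ne ?_
      intro i _ hfi hwi
      exact hfi (hf i hwi)
    have hr0 : ∀ i, w i = 0 → (P 0 i).eval a = 0 := by
      intro i hi
      rw [hc i hi, Polynomial.eval_zero]
    constructor
    · rintro ⟨y, hy0, hy⟩
      -- `y = P z`
      obtain ⟨z, hz⟩ : ∃ z, (P.map (Polynomial.eval a)).mulVec z = y := by
        have hu : IsUnit (P.map (Polynomial.eval a)).det := by
          have h1 : (P.map (Polynomial.eval a)).det = P.det.eval a :=
            (RingHom.map_det (Polynomial.evalRingHom a) P).symm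
          rw [h1]
          exact isUnit_iff_ne_zero.2 hdet'
        refine ⟨(P.map (Polynomial.eval a))⁻¹.mulVec y, ?_⟩
        rw [Matrix.mulVec_mulVec, Matrix.mul_nonsing_inv _ hu, Matrix.one_mulVec]
      rw [← hz, quad_eq _ _ _ _ (hDa a)] at hy
      rw [← hz, hrow] at hy0
      refine ⟨fun k => z (e k) / c k, ?_, ?_⟩
      · intro h0
        have h1 : ∀ k, z (e k) = 0 := by
          intro k
          have := congrFun h0 k
          simp only [Pi.zero_apply, div_eq_zero_iff] at this
          rcases this with h | h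
          · exact h
          · exact absurd h (hc0 k)
        rw [hsum _ (fun i hi => by rw [hr0 i hi, zero_mul])] at hy0
        rw [Finset.sum_eq_zero (fun k _ => by rw [h1 k, mul_zero])] at hy0
        exact zero_ne_one hy0
      · rw [hsum _ (fun i hi => by rw [hi, Polynomial.eval_zero, zero_mul])] at hy
        rw [← hy]
        refine Finset.sum_congr rfl fun k _ => ?_
        beta_reduce
        rw [hDc k a]
        have := hc0 k
        field_simp
    · rintro ⟨t, ht0, ht⟩
      obtain ⟨v, hv1, hv2⟩ := move (fun k => (w (e k)).eval a) (fun k => (P 0 (e k)).eval a)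
        (fun k => c k * t k) hwa' (by
          intro h0
          have h1 : ∀ i, (P.map (Polynomial.eval a)) 0 i = 0 := by
            intro i
            by_cases hi : w i = 0
            · exact hr0 i hi
            · have := congrFun h0 (e.symm ⟨i, hi⟩)
              rw [Equiv.apply_symm_apply] at this
              exact this
          have h2 : (P.map (Polynomial.eval a)).det = P.det.eval a :=
            (RingHom.map_det (Polynomial.evalRingHom a) P).symm
          exact hdet' (by rw [← h2]; exact Matrix.det_eq_zero_of_row_eq_zero 0 h1)) (by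
          intro h0
          apply ht0
          funext k
          have := congrFun h0 k
          simp only [Pi.zero_apply, mul_eq_zero] at this
          rcases this with h | h
          · exact absurd h (hc0 k)
          · exact h) (by
          rw [← ht]
          refine Finset.sum_congr rfl fun k _ => ?_
          beta_reduce
          rw [hDc k a]
          ring)
      refine ⟨(P.map (Polynomial.eval a)).mulVec
        (fun i => if h : w i ≠ 0 then v (e.symm ⟨i, h⟩) else 0), ?_, ?_⟩
      · rw [hrow, hsum _ (fun i hi => by rw [hr0 i hi, zero_mul]), ← hv1]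
        refine Finset.sum_congr rfl fun k _ => ?_
        rw [dif_pos (e k).2]
        simp
      · rw [quad_eq _ _ _ _ (hDa a),
          hsum _ (fun i hi => by
            have h1 : (w i).eval a = 0 := by rw [hi, Polynomial.eval_zero]
            rw [h1, zero_mul]), ← hv2]
        refine Finset.sum_congr rfl fun k _ => ?_
        rw [dif_pos (e k).2]
        simp

end Pool.Agent.U603.PC
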